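import Pool.Agent.Y560.TF.Stm

/-!
# TF-OET and TF-OEM: transfer and measurability for one-ended structures
(adapted from `Pool.Agent.Y574.TG.Oet`)
-/

set_option autoImplicit false

namespace Pool.Agent.Y484.TF

open Set MeasureTheory
open Pool.Agent.H899R2.VP (St Adj PIso BF IsoOn idOn inv comp zipSet)
open Pool.Agent.H533R2.VO (RS lift put OS Ic RIso Dich VC BlkV S_FINAL)
open Pool.Agent.H566P (ar R2 v2 a0 a1 lt ac co mk S_ACC S_MSG)
open Pool.Agent.Y560.TG (acc msg lt_mk ac_mk co_mk R2_ext piso_iff riso_iff riso_isoOn meas_lt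
  meas_ac meas_co meas_into cont_into piso_lt piso_ac piso_co piso_eq ex lt_ex ac_ex co_ex_even
  co_ex_odd piso_ex orb orb_ex Nm Off Sm Thin Few bf_trans0 bf_symm0 iso_trans0 iso_symm0
  iso_refl0 S_EXT S_GL S_MAT S_BP mat pick Se)
open Pool.Agent.Y560.TF

theorem piso_orb {R R' : R2} {p : Set (ℕ × ℕ)} (h : PIso (lift R) (lift R') p) {x x' y y' : ℕ}
    (hx : (x, x') ∈ p) (hy : (y, y') ∈ p) : orb R x y ↔ orb R' x' y' :=
  exists_congr fun _ => piso_ac h hx hy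

/-- (1) -/
theorem bg_iff (hT : S_TRQ) {R Y : R2} {β : Ordinal.{0}} (hβ : Ordinal.omega0 ≤ β)
    {q : Set (ℕ × ℕ)} {y z y' z' : ℕ} (h : BF (lift R) (lift Y) univ univ β q)
    (hy : (y, y') ∈ q) (hz : (z, z') ∈ q) : Bg β R y z ↔ Bg β Y y' z' := by
  have h1 := piso_orb h.piso hy hz
  have h2 : BF (lift (lb R y)) (lift (lb Y y')) (Ob R y z) (Ob Y y' z') β ∅ :=
    (hT.2.2.1 R Y q y y' z z' β hβ h hy hz).subset (empty_subset _)
  have h3 : Sm β (lb R y) (Ob R y z) ↔ Sm β (lb Y y') (Ob Y y' z') :=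
    ⟨fun h => h.congr h2, fun h => h.congr (bf_symm0 h2)⟩
  unfold Bg
  rw [h1, h3]

theorem three_le {β : Ordinal.{0}} (hβ : Ordinal.omega0 ≤ β) : (3 : Ordinal.{0}) ≤ β := by
  refine le_trans ?_ hβ
  exact_mod_cast (Ordinal.natCast_lt_omega0 3).le

theorem eight_le {β : Ordinal.{0}} (hβ : Ordinal.omega0 ≤ β) : (8 : Ordinal.{0}) ≤ β := by
  refine le_trans ?_ hβ
  exact_mod_cast (Ordinal.natCast_lt_omega0 8).le

theorem lt1 (β : Ordinal.{0}) : β < β + 1 := by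
  rw [← Order.succ_eq_add_one]
  exact Order.lt_succ β

theorem lt2 (β : Ordinal.{0}) : β + 1 < β + 2 := by
  have : β + 2 = β + 1 + 1 := by rw [add_assoc, one_add_one_eq_two]
  rw [this]
  exact lt1 _

theorem lt3 (β : Ordinal.{0}) : β + 2 < β + 3 := by
  have : β + 3 = β + 2 + 1 := by rw [add_assoc, two_add_one_eq_three]
  rw [this]
  exact lt1 _

/-- the labels of the list -/
theorem la_of (hT : S_TRQ) {R Y : R2} {β : Ordinal.{0}} (hβ : Ordinal.omega0 ≤ β)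
    {q : Set (ℕ × ℕ)} {y w y' w' : ℕ} (h : BF (lift R) (lift Y) univ univ β q)
    (hy : (y, y') ∈ q) (hw : (w, w') ∈ q) (L : ℕ → Prop) :
    (∀ k, Q R y k w ↔ L k) ↔ ∀ k, Q Y y' k w' ↔ L k := by
  have h1 := h.mono (three_le hβ)
  refine forall_congr' fun m => ?_
  rw [hT.1 R Y q y y' w w' m h1 hy hw]

/-- (2) -/
theorem lr_iff (hT : S_TRQ) {R Y : R2} {β : Ordinal.{0}} (hβ : Ordinal.omega0 ≤ β)
    (Λ : ℕ → ℕ → Prop) (j : ℕ)
    {q : Set (ℕ × ℕ)} {y z y' z' : ℕ} (h : BF (lift R) (lift Y) univ univ (β + 1) q)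
    (hy : (y, y') ∈ q) (hz : (z, z') ∈ q) : Lr Λ β R j y z ↔ Lr Λ β Y j y' z' := by
  have h0 := h.mono (lt1 β).le
  constructor
  · rintro ⟨h1, w, h2, h3, h4⟩
    obtain ⟨w', -, h5⟩ := h.forth (lt1 β) (mem_univ w)
    have hy5 := mem_insert_of_mem (w, w') hy
    have hz5 := mem_insert_of_mem (w, w') hz
    have hw5 := mem_insert (w, w') q
    refine ⟨fun h6 => h1 ((bg_iff hT hβ h0 hy hz).2 h6), w', (bg_iff hT hβ h5 hy5 hw5).1 h2,
      (la_of hT hβ h5 hy5 hw5 _).1 h3, ?_⟩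
    rcases h4 with ⟨h4, h6⟩ | ⟨h4, h6⟩
    · exact Or.inl ⟨h4, (piso_lt h5.piso hz5 hw5).1 h6⟩
    · exact Or.inr ⟨h4, (piso_lt h5.piso hw5 hz5).1 h6⟩
  · rintro ⟨h1, w', h2, h3, h4⟩
    obtain ⟨w, -, h5⟩ := h.back (lt1 β) (mem_univ w')
    have hy5 := mem_insert_of_mem (w, w') hy
    have hz5 := mem_insert_of_mem (w, w') hz
    have hw5 := mem_insert (w, w') q
    refine ⟨fun h6 => h1 ((bg_iff hT hβ h0 hy hz).1 h6), w, (bg_iff hT hβ h5 hy5 hw5).2 h2,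
      (la_of hT hβ h5 hy5 hw5 _).2 h3, ?_⟩
    rcases h4 with ⟨h4, h6⟩ | ⟨h4, h6⟩
    · exact Or.inl ⟨h4, (piso_lt h5.piso hz5 hw5).2 h6⟩
    · exact Or.inr ⟨h4, (piso_lt h5.piso hw5 hz5).2 h6⟩

/-- (3) -/
theorem oneEnd (hT : S_TRQ) {R Y : R2} {β : Ordinal.{0}} (hβ : Ordinal.omega0 ≤ β)
    (h : BF (lift R) (lift Y) univ univ (β + 3) ∅) (hO : OneEnd β R) : OneEnd β Y := by
  constructor
  · intro y'
    obtain ⟨y, -, h1⟩ := h.back (lt3 β) (mem_univ y')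
    obtain ⟨z, hz⟩ := hO.ex y
    obtain ⟨z', -, h2⟩ := h1.forth (lt2 β) (mem_univ z)
    exact ⟨z', (bg_iff hT hβ (h2.mono (lt1 β).le) (by simp) (by simp)).1 hz⟩
  · intro y' z' w' h4 h5
    obtain ⟨y, -, h1⟩ := h.back (lt3 β) (mem_univ y')
    obtain ⟨z, -, h2⟩ := h1.back (lt2 β) (mem_univ z')
    obtain ⟨w, -, h3⟩ := h2.back (lt1 β) (mem_univ w')
    have h6 := hO.un y z w ((bg_iff hT hβ h3 (by simp) (by simp)).2 h4)
      ((bg_iff hT hβ h3 (by simp) (by simp)).2 h5)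
    exact (hT.2.1 R Y _ y y' z z' w w' (h3.mono (eight_le hβ)) (by simp) (by simp)
      (by simp)).1 h6
  · intro y' z' w' h4 h5
    obtain ⟨y, -, h1⟩ := h.back (lt3 β) (mem_univ y')
    obtain ⟨z, -, h2⟩ := h1.back (lt2 β) (mem_univ z')
    obtain ⟨w, -, h3⟩ := h2.back (lt1 β) (mem_univ w')
    have h6 := hO.tr y z w ((bg_iff hT hβ h3 (by simp) (by simp)).2 h4)
      ((bg_iff hT hβ h3 (by simp) (by simp)).2 h5)
    exact (bg_iff hT hβ h3 (by simp) (by simp)).1 h6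

/-- OET -/
theorem t_OET (hE : S_EXT) (hT : S_TRQ) : S_OET := by
  intro R Y β Λ hβ
  refine ⟨fun q y z y' z' h hy hz => bg_iff hT hβ h hy hz,
    fun q j y z y' z' h hy hz => lr_iff hT hβ Λ j h hy hz, fun h hO => oneEnd hT hβ h hO, ?_⟩
  intro q y y' o h hy
  have hsp : ∀ q', q ⊆ q' → BF (lift R) (lift Y) univ univ (β + 1) q' → ∀ u ∈ q',
      (u.1 ∈ Sp β R y ↔ u.2 ∈ Sp β Y y') := by
    intro q' hq' h1 u hu
    have h2 := bg_iff hT hβ (h1.mono (lt1 β).le) (hq' hy) (show (u.1, u.2) ∈ q' from hu)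
    have h3 := piso_orb h1.piso (hq' hy) (show (u.1, u.2) ∈ q' from hu)
    show (¬ Bg β R y u.1 ∧ ¬ orb R y u.1) ↔ (¬ Bg β Y y' u.2 ∧ ¬ orb Y y' u.2)
    rw [h2, h3]
  refine (hE R Y (ex (PA Λ β R y) R) (ex (PA Λ β Y y') Y) univ univ
    (Sp β R y) (Sp β Y y') q ∅ (β + 1) (subset_univ _) (subset_univ _) ?_ o h).subset
    (empty_subset _)
  intro q' hq' h1
  refine ⟨?_, hsp q' hq' h1⟩
  rw [union_empty, piso_ex]
  refine ⟨h1.piso.mono fun u hu => hu.1, fun k u hu => ?_⟩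
  have hu' : (u.1, u.2) ∈ q' := hu.1
  unfold PA
  by_cases hk : k % 2 = 0
  · rw [if_pos hk, if_pos hk]
    exact hT.1 R Y q' y y' u.1 u.2 (k / 2) (h1.mono ((three_le hβ).trans (lt1 β).le)) (hq' hy) hu'
  · rw [if_neg hk, if_neg hk]
    exact lr_iff hT hβ Λ (k / 2) h1 (hq' hy) hu'

/-! ### Measurability -/

theorem meas_iff' {Ω : Type} [MeasurableSpace Ω] {P P' : Ω → Prop}
    (h : MeasurableSet {ω | P ω}) (h' : MeasurableSet {ω | P' ω}) :
    MeasurableSet {ω | P ω ↔ P' ω} := by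
  have e : {ω | P ω ↔ P' ω} = ({ω | P ω} ∩ {ω | P' ω}) ∪ ({ω | P ω}ᶜ ∩ {ω | P' ω}ᶜ) := by
    ext ω
    simp only [mem_ofPred_eq, mem_union, mem_inter_iff, mem_compl_iff]
    tauto
  rw [e]
  exact (h.inter h').union (h.compl.inter h'.compl)

theorem meas_la (hM : S_MQ) (y w : ℕ) (L : ℕ → Prop) :
    MeasurableSet {Y : R2 | ∀ k, Q Y y k w ↔ L k} := by
  have e : {Y : R2 | ∀ k, Q Y y k w ↔ L k} = ⋂ k, {Y : R2 | Q Y y k w ↔ L k} := by
    ext
    simp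
  rw [e]
  exact MeasurableSet.iInter fun k => meas_iff' (hM.1 y k w) (MeasurableSet.const _)

theorem meas_orb (y z : ℕ) : MeasurableSet {Y : R2 | orb Y y z} := by
  have e : {Y : R2 | orb Y y z} = ⋃ n, {Y : R2 | ac Y n y z} := by
    ext
    simp [orb]
  rw [e]
  exact MeasurableSet.iUnion fun n => meas_ac _ _ _

theorem meas_lb (hM : S_MQ) (y : ℕ) : Measurable (fun Y : R2 => lift (lb Y y)) := by
  have h : Measurable (fun Y : R2 => lb Y y) := by
    refine meas_into ?_ ?_ ?_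
    · intro a b
      have e : {Y : R2 | lt (lb Y y) a b} = {Y : R2 | lt Y a b} := by
        ext Y
        exact lt_ex _ _ _ _
      rw [e]
      exact meas_lt _ _
    · intro n a b
      have e : {Y : R2 | ac (lb Y y) n a b} = {Y : R2 | ac Y n a b} := by
        ext Y
        exact ac_ex _ _ _ _ _
      rw [e]
      exact meas_ac _ _ _
    · intro n a
      obtain ⟨k, rfl | rfl⟩ : ∃ k, n = 2 * k ∨ n = 2 * k + 1 := ⟨n / 2, by omega⟩
      · have e : {Y : R2 | co (lb Y y) (2 * k) a} = {Y : R2 | co Y k a} := by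
          ext Y
          exact co_ex_even _ _ _ _
        rw [e]
        exact meas_co _ _
      · have e : {Y : R2 | co (lb Y y) (2 * k + 1) a} = {Y : R2 | Q Y y k a} := by
          ext Y
          exact co_ex_odd _ _ _ _
        rw [e]
        exact hM.1 _ _ _
  exact measurable_const.prodMk h

theorem meas_lift : Measurable (fun Y : R2 => lift Y) := measurable_const.prodMk measurable_id

/-- OEM -/
theorem t_OEM (hE : S_OET) (hT : S_TRQ) (hM : S_MQ) : S_OEM := by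
  intro R β γ Λ hβ hβγ hγ
  have hβ1 : β < Ordinal.omega 1 :=
    lt_of_lt_of_le ((lt1 β).trans ((lt2 β).trans (lt3 β))) (hβγ.trans hγ.le)
  have hBF : MeasurableSet {Y : R2 | BF (lift R) (lift Y) univ univ γ ∅} := by
    refine msg ar (lift R) univ R2 (fun Y => lift Y) (fun _ => univ) meas_lift ?_ γ hγ ∅
    intro z
    simp
  have hBg : ∀ y z, MeasurableSet {Y : R2 | BF (lift R) (lift Y) univ univ γ ∅ ∧ Bg β Y y z} := by
    intro y z
    have e : {Y : R2 | BF (lift R) (lift Y) univ univ γ ∅ ∧ Bg β Y y z} =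
        {Y : R2 | BF (lift R) (lift Y) univ univ γ ∅} ∩ ({Y : R2 | orb Y y z}ᶜ ∩
          ⋃ y0, ⋃ z0, ({_Y : R2 | Bg β R y0 z0} ∩
            {Y : R2 | BF (lift (lb R y0)) (lift (lb Y y)) (Ob R y0 z0) (Ob Y y z) β ∅})) := by
      ext Y
      simp only [mem_ofPred_eq, mem_inter_iff, mem_compl_iff, mem_iUnion]
      refine and_congr_right fun h => ?_
      constructor
      · intro h1
        refine ⟨h1.1, ?_⟩
        obtain ⟨y0, -, h2⟩ := (h.mono hβγ).back (lt3 β) (mem_univ y)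
        obtain ⟨z0, -, h3⟩ := h2.back (lt2 β) (mem_univ z)
        have h4 := h3.mono (lt1 β).le
        exact ⟨y0, z0, (bg_iff hT hβ h4 (by simp) (by simp)).2 h1,
          (hT.2.2.1 R Y _ y0 y z0 z β hβ h4 (by simp) (by simp)).subset (empty_subset _)⟩
      · rintro ⟨h1, y0, z0, h2, h3⟩
        exact ⟨h1, fun h4 => h2.2 (h4.congr (bf_symm0 h3))⟩
    rw [e]
    refine hBF.inter ((meas_orb _ _).compl.inter (MeasurableSet.iUnion fun y0 =>
      MeasurableSet.iUnion fun z0 => (MeasurableSet.const _).inter ?_))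
    exact msg ar (lift (lb R y0)) (Ob R y0 z0) R2 (fun Y => lift (lb Y y)) (fun Y => Ob Y y z)
      (meas_lb hM y) (fun t => hM.2.2 y z t) β hβ1 ∅
  refine ⟨hBg, fun j y z => ?_⟩
  have e : {Y : R2 | BF (lift R) (lift Y) univ univ γ ∅ ∧ Lr Λ β Y j y z} =
      ({Y : R2 | BF (lift R) (lift Y) univ univ γ ∅} ∩
        {Y : R2 | BF (lift R) (lift Y) univ univ γ ∅ ∧ Bg β Y y z}ᶜ) ∩
      ⋃ w, ({Y : R2 | BF (lift R) (lift Y) univ univ γ ∅ ∧ Bg β Y y w} ∩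
        ({Y : R2 | ∀ k, Q Y y k w ↔ Λ (j / 2) k} ∩
          (({_Y : R2 | j % 2 = 0} ∩ {Y : R2 | lt Y z w}) ∪
            ({_Y : R2 | j % 2 = 1} ∩ {Y : R2 | lt Y w z})))) := by
    ext Y
    simp only [mem_ofPred_eq, mem_inter_iff, mem_compl_iff, mem_iUnion, mem_union, Lr]
    constructor
    · rintro ⟨h, h1, w, h2, h3, h4⟩
      exact ⟨⟨h, fun h5 => h1 h5.2⟩, w, ⟨h, h2⟩, h3, h4⟩
    · rintro ⟨⟨h, h1⟩, w, ⟨-, h2⟩, h3, h4⟩
      exact ⟨h, fun h5 => h1 ⟨h, h5⟩, w, h2, h3, h4⟩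
  rw [e]
  exact (hBF.inter (hBg y z).compl).inter (MeasurableSet.iUnion fun w =>
    (hBg y w).inter ((meas_la hM _ _ _).inter
      (((MeasurableSet.const _).inter (meas_lt _ _)).union
        ((MeasurableSet.const _).inter (meas_lt _ _)))))

end Pool.Agent.Y484.TF
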